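import Mathlib

/-!
# The Takagi function: functional equation, bounds, and states `D t + T t = c`
-/

set_option autoImplicit false

namespace Pool.Agent.Q50.TK

open Set

/-- distance to the nearest integer -/
noncomputable def phi (x : ℝ) : ℝ := |x - round x|

/-- the Takagi function -/
noncomputable def T (x : ℝ) : ℝ := ∑' n : ℕ, phi (2 ^ n * x) / 2 ^ n

lemma phi_eq (x : ℝ) : phi x = min (Int.fract x) (1 - Int.fract x) := abs_sub_round_eq_min x

lemma phi_nonneg (x : ℝ) : 0 ≤ phi x := abs_nonneg _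

lemma phi_le (x : ℝ) : phi x ≤ 1 / 2 := abs_sub_round x

lemma phi_add_int (x : ℝ) (n : ℤ) : phi (x + n) = phi x := by
  rw [phi_eq, phi_eq, Int.fract_add_intCast]

lemma phi_of_le_half {x : ℝ} (h0 : 0 ≤ x) (h1 : x ≤ 1 / 2) : phi x = x := by
  rw [phi_eq, Int.fract_eq_self.2 ⟨h0, by linarith⟩]
  exact min_eq_left (by linarith)

lemma phi_of_half_le {x : ℝ} (h0 : 1 / 2 ≤ x) (h1 : x ≤ 1) : phi x = 1 - x := by
  rcases eq_or_lt_of_le h1 with h | h
  · subst h
    have : phi (0 + ((1 : ℤ) : ℝ)) = phi 0 := phi_add_int 0 1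
    rw [phi_of_le_half le_rfl (by norm_num)] at this
    norm_num at this
    rw [this]; norm_num
  · rw [phi_eq, Int.fract_eq_self.2 ⟨by linarith, h⟩]
    exact min_eq_right (by linarith)

lemma phi_neg (x : ℝ) : phi (-x) = phi x := by
  have h : phi x = |x - round x| := rfl
  rw [phi_eq]
  by_cases hx : Int.fract x = 0
  · rw [phi_eq, hx, Int.fract_neg_eq_zero.2 hx]
  · rw [Int.fract_neg hx, phi_eq, min_comm]
    congr 1
    ring

lemma summ (x : ℝ) : Summable fun n : ℕ => phi (2 ^ n * x) / 2 ^ n := by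
  refine Summable.of_nonneg_of_le (fun n => ?_) (fun n => ?_) (summable_geometric_two)
  · exact div_nonneg (phi_nonneg _) (by positivity)
  · rw [one_div, inv_pow, ← one_div, div_le_div_iff_of_pos_right (by positivity)]
    linarith [phi_le (2 ^ n * x)]

lemma T_nonneg (x : ℝ) : 0 ≤ T x := tsum_nonneg fun _ => div_nonneg (phi_nonneg _) (by positivity)

lemma T_fe (x : ℝ) : T x = phi x + T (2 * x) / 2 := by
  unfold T
  rw [(summ x).tsum_eq_zero_add, ← tsum_div_const]
  simp only [pow_zero, one_mul, div_one]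
  congr 1
  apply tsum_congr
  intro n
  rw [pow_succ, div_div, mul_assoc]

lemma T_add_int (x : ℝ) (n : ℤ) : T (x + n) = T x := by
  unfold T
  apply tsum_congr
  intro k
  have : (2 : ℝ) ^ k * (x + n) = 2 ^ k * x + ((2 ^ k * n : ℤ) : ℝ) := by push_cast; ring
  rw [this, phi_add_int]

lemma T_neg (x : ℝ) : T (-x) = T x := by
  unfold T
  apply tsum_congr
  intro k
  rw [mul_neg, phi_neg]

lemma T_one_sub (x : ℝ) : T (1 - x) = T x := by
  have h := T_add_int (-x) 1
  rw [T_neg] at h
  rw [← h]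
  congr 1
  push_cast
  ring

lemma T_le_one (x : ℝ) : T x ≤ 1 := by
  have h : ∀ n : ℕ, phi (2 ^ n * x) / 2 ^ n ≤ (1 / 2) * (1 / 2 : ℝ) ^ n := by
    intro n
    rw [one_div, inv_pow, ← one_div, ← one_div, mul_one_div, div_le_div_iff_of_pos_right (by positivity)]
    exact phi_le _
  calc T x ≤ ∑' n : ℕ, (1 / 2) * (1 / 2 : ℝ) ^ n :=
        (summ x).tsum_le_tsum h (summable_geometric_two.mul_left _)
    _ = 1 := by rw [tsum_mul_left, tsum_geometric_two]; norm_num

lemma phi_two (x : ℝ) : phi x + phi (2 * x) / 2 ≤ 1 / 2 := by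
  set f := Int.fract x with hf
  have h0 : 0 ≤ f := Int.fract_nonneg x
  have h1 : f < 1 := Int.fract_lt_one x
  have e1 : phi x = phi f := by
    have := phi_add_int f ⌊x⌋
    rw [hf, Int.fract_add_floor] at this
    exact this
  have e2 : phi (2 * x) = phi (2 * f) := by
    have := phi_add_int (2 * f) (2 * ⌊x⌋)
    rw [← this]
    congr 1
    rw [hf]
    have h := Int.fract_add_floor x
    push_cast
    linarith
  rw [e1, e2]
  rcases le_total f (1 / 2) with h | h
  · rw [phi_of_le_half h0 h]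
    rcases le_total f (1 / 4) with h' | h'
    · rw [phi_of_le_half (by linarith) (by linarith)]
      linarith
    · rw [phi_of_half_le (by linarith) (by linarith)]
      linarith
  · rw [phi_of_half_le h h1.le]
    have e3 : phi (2 * f) = phi (2 * f - 1) := by
      have := phi_add_int (2 * f - 1) 1
      rw [← this]
      congr 1
      push_cast
      ring
    rw [e3]
    rcases le_total f (3 / 4) with h' | h'
    · rw [phi_of_le_half (by linarith) (by linarith)]
      linarith
    · rw [phi_of_half_le (by linarith) (by linarith)]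
      linarith

lemma T_le (x : ℝ) : T x ≤ 2 / 3 := by
  have hb : BddAbove (range T) := ⟨1, by rintro _ ⟨x, rfl⟩; exact T_le_one x⟩
  have h1 : (⨆ x, T x) ≤ 1 / 2 + (⨆ x, T x) / 4 := by
    apply ciSup_le
    intro z
    have h2 := T_fe z
    have h3 := T_fe (2 * z)
    have h4 := phi_two z
    have h5 : T (2 * (2 * z)) ≤ ⨆ x, T x := le_ciSup hb _
    rw [h2, h3]
    linarith
  have h6 : T x ≤ ⨆ x, T x := le_ciSup hb x
  linarith

lemma T_low {t : ℝ} (h0 : 0 ≤ t) (h1 : t ≤ 1 / 2) : T t = t + T (2 * t) / 2 := by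
  rw [T_fe, phi_of_le_half h0 h1]

lemma T_high {t : ℝ} (h0 : 1 / 2 ≤ t) (h1 : t ≤ 1) : T t = 1 - t + T (2 * t - 1) / 2 := by
  rw [T_fe, phi_of_half_le h0 h1]
  have := T_add_int (2 * t - 1) 1
  rw [← this]
  congr 3
  push_cast
  ring

/-- `T u ≤ D u + (2/3) 2^{-D}` -/
lemma T_slope (D : ℕ) : ∀ u : ℝ, 0 ≤ u → u ≤ 1 → T u ≤ D * u + 2 / 3 / 2 ^ D := by
  induction D with
  | zero =>
    intro u _ _
    have := T_le u
    simpa using this
  | succ D ih =>
    intro u h0 h1
    rcases le_total u (1 / 2) with h | h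
    · rw [T_low h0 h]
      have := ih (2 * u) (by linarith) (by linarith)
      have e : (2 : ℝ) / 3 / 2 ^ (D + 1) = 2 / 3 / 2 ^ D / 2 := by rw [pow_succ]; field_simp
      rw [e]
      push_cast
      linarith
    · rcases Nat.eq_zero_or_pos D with hD | hD
      · subst hD
        rw [T_high h h1]
        have := T_le (2 * u - 1)
        norm_num
        linarith
      · have h2 := T_le u
        have h3 : (1 : ℝ) ≤ D := by exact_mod_cast hD
        have h4 : (0 : ℝ) ≤ 2 / 3 / 2 ^ (D + 1) := by positivity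
        push_cast
        nlinarith

/-- the solutions of `D t + T t = C / q` in `[0,1]` -/
def Sol (q : ℕ) (D C : ℤ) : Set ℝ := {t | 0 ≤ t ∧ t ≤ 1 ∧ (D : ℝ) * t + T t = C / q}

/-- the necessary condition for solutions -/
def ok (q : ℕ) (D C : ℤ) : Bool :=
  if 0 ≤ D then decide (0 ≤ C) && decide ((C - D * q) * 3 * 2 ^ D.toNat ≤ 2 * q)
  else decide (D * q ≤ C) && decide (C * 3 * 2 ^ (-D).toNat ≤ 2 * q)

lemma ok_of_mem {q : ℕ} (hq : 0 < q) {D C : ℤ} {t : ℝ} (h : t ∈ Sol q D C) : ok q D C = true := by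
  obtain ⟨h0, h1, h⟩ := h
  have hq' : (0 : ℝ) < q := by exact_mod_cast hq
  have hT := T_nonneg t
  have hC : (C : ℝ) = (D * t + T t) * q := by rw [h]; field_simp
  unfold ok
  split_ifs with hD
  · obtain ⟨d, rfl⟩ := Int.eq_ofNat_of_zero_le hD
    rw [Bool.and_eq_true, decide_eq_true_eq, decide_eq_true_eq]
    constructor
    · have : (0 : ℝ) ≤ C := by
        rw [hC]
        have : (0 : ℝ) ≤ ((d : ℤ) : ℝ) := by positivity
        positivity
      exact_mod_cast this
    · have h2 := T_slope d (1 - t) (by linarith) (by linarith)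
      rw [T_one_sub] at h2
      have h3 : ((C : ℝ) - d * q) * 3 * 2 ^ d ≤ 2 * q := by
        have h4 : (C : ℝ) - d * q ≤ 2 / 3 / 2 ^ d * q := by
          rw [hC]
          push_cast
          nlinarith
        have h5 : (0 : ℝ) < 2 ^ d := by positivity
        calc ((C : ℝ) - d * q) * 3 * 2 ^ d = ((C : ℝ) - d * q) * (3 * 2 ^ d) := by ring
          _ ≤ (2 / 3 / 2 ^ d * q) * (3 * 2 ^ d) := mul_le_mul_of_nonneg_right h4 (by positivity)
          _ = 2 * q := by field_simp
      rw [Int.toNat_natCast]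
      exact_mod_cast h3
  · push Not at hD
    obtain ⟨e, he⟩ := Int.eq_ofNat_of_zero_le (show 0 ≤ -D by omega)
    have hDe : D = -(e : ℤ) := by omega
    subst hDe
    rw [Bool.and_eq_true, decide_eq_true_eq, decide_eq_true_eq]
    constructor
    · have : ((-(e : ℤ) * (q : ℤ) : ℤ) : ℝ) ≤ C := by
        rw [hC]
        push_cast
        have : (0 : ℝ) ≤ (e : ℝ) := by positivity
        nlinarith [mul_nonneg this (sub_nonneg.2 h1)]
      exact_mod_cast this
    · have h2 := T_slope e t h0 h1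
      have h3 : (C : ℝ) * 3 * 2 ^ e ≤ 2 * q := by
        have h4 : (C : ℝ) ≤ 2 / 3 / 2 ^ e * q := by
          rw [hC]
          push_cast
          nlinarith
        calc (C : ℝ) * 3 * 2 ^ e = (C : ℝ) * (3 * 2 ^ e) := by ring
          _ ≤ (2 / 3 / 2 ^ e * q) * (3 * 2 ^ e) := mul_le_mul_of_nonneg_right h4 (by positivity)
          _ = 2 * q := by field_simp
      rw [neg_neg, Int.toNat_natCast]
      exact_mod_cast h3

/-- one step: the first binary digit -/
lemma step {q : ℕ} (hq : 0 < q) {D C : ℤ} {t : ℝ} (h : t ∈ Sol q D C) :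
    (∃ u ∈ Sol q (D + 1) (2 * C), t = u / 2) ∨
    (∃ u ∈ Sol q (D - 1) (2 * C - (D + 1) * q), t = (1 + u) / 2) := by
  obtain ⟨h0, h1, h⟩ := h
  have hq' : (q : ℝ) ≠ 0 := by exact_mod_cast hq.ne'
  rcases le_total t (1 / 2) with h2 | h2
  · left
    refine ⟨2 * t, ⟨by linarith, by linarith, ?_⟩, by ring⟩
    rw [T_low h0 h2] at h
    push_cast
    have : (2 * (C : ℝ)) / q = 2 * (C / q) := by ring
    rw [this, ← h]
    ring
  · right
    refine ⟨2 * t - 1, ⟨by linarith, by linarith, ?_⟩, by ring⟩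
    rw [T_high h2 h1] at h
    push_cast
    have : (2 * (C : ℝ) - (D + 1) * q) / q = 2 * (C / q) - (D + 1) := by field_simp
    rw [this, ← h]
    ring

/-- the defect -/
noncomputable def dfc (q : ℕ) (s : ℤ × ℤ) (t : ℝ) : ℝ := (s.1 : ℝ) * t + T t - s.2 / q

/-- the state after one digit -/
def nx (q : ℕ) (s : ℤ × ℤ) (b : Bool) : ℤ × ℤ :=
  if b then (s.1 - 1, 2 * s.2 - (s.1 + 1) * q) else (s.1 + 1, 2 * s.2)

/-- the state after a word of digits -/
def run (q : ℕ) : List Bool → ℤ × ℤ → ℤ × ℤ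
  | [], s => s
  | b :: l, s => run q l (nx q s b)

/-- the number with the digits `l` followed by `u` -/
noncomputable def val : List Bool → ℝ → ℝ
  | [], u => u
  | b :: l, u => ((if b then 1 else 0) + val l u) / 2

lemma val_mem (l : List Bool) {u : ℝ} (h0 : 0 ≤ u) (h1 : u ≤ 1) : 0 ≤ val l u ∧ val l u ≤ 1 := by
  induction l with
  | nil => exact ⟨h0, h1⟩
  | cons b l ih =>
    unfold val
    split_ifs <;> constructor <;> linarith [ih.1, ih.2]

lemma dfc_val {q : ℕ} (hq : 0 < q) (l : List Bool) : ∀ (s : ℤ × ℤ) {u : ℝ}, 0 ≤ u → u ≤ 1 →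
    dfc q s (val l u) = dfc q (run q l s) u / 2 ^ l.length := by
  have hq' : (q : ℝ) ≠ 0 := by exact_mod_cast hq.ne'
  induction l with
  | nil => intro s u _ _; simp [val, run]
  | cons b l ih =>
    intro s u h0 h1
    have hv := val_mem l h0 h1
    have key : dfc q s (((if b then 1 else 0) + val l u) / 2) = dfc q (nx q s b) (val l u) / 2 := by
      unfold dfc nx
      cases b
      · simp only [Bool.false_eq_true, if_false]
        rw [T_low (by linarith [hv.1]) (by linarith [hv.2])]
        have e : 2 * ((0 + val l u) / 2) = val l u := by ring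
        rw [e]
        push_cast
        field_simp
        ring
      · simp only [if_true]
        rw [T_high (by linarith [hv.1]) (by linarith [hv.2])]
        have e : 2 * ((1 + val l u) / 2) - 1 = val l u := by ring
        rw [e]
        push_cast
        field_simp
        ring
    unfold val run
    rw [key, ih (nx q s b) h0 h1, List.length_cons, pow_succ]
    field_simp

lemma mem_val {q : ℕ} (hq : 0 < q) (l : List Bool) (s : ℤ × ℤ) {u : ℝ}
    (h : u ∈ Sol q (run q l s).1 (run q l s).2) : val l u ∈ Sol q s.1 s.2 := by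
  obtain ⟨h0, h1, h⟩ := h
  refine ⟨(val_mem l h0 h1).1, (val_mem l h0 h1).2, ?_⟩
  have := dfc_val hq l s h0 h1
  have h2 : dfc q (run q l s) u = 0 := by unfold dfc; rw [h, sub_self]
  rw [h2, zero_div] at this
  unfold dfc at this
  linarith

/-- the fixed point of a word which returns to its state is a solution -/
lemma fix_mem {q : ℕ} (hq : 0 < q) (l : List Bool) (hl : l ≠ []) (s : ℤ × ℤ) (hs : run q l s = s) {t : ℝ}
    (h0 : 0 ≤ t) (h1 : t ≤ 1) (ht : val l t = t) : t ∈ Sol q s.1 s.2 := by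
  refine ⟨h0, h1, ?_⟩
  have := dfc_val hq l s h0 h1
  rw [hs, ht] at this
  have h2 : (2 : ℝ) ≤ 2 ^ l.length := by
    have h3 : 1 ≤ l.length := List.length_pos_iff.2 hl
    calc (2 : ℝ) = 2 ^ 1 := by norm_num
      _ ≤ 2 ^ l.length := pow_le_pow_right₀ (by norm_num) h3
  have h4 : dfc q s t = 0 := by
    rw [eq_div_iff (by positivity)] at this
    have h5 : dfc q s t * (2 ^ l.length - 1) = 0 := by linarith
    rcases mul_eq_zero.1 h5 with h6 | h6
    · exact h6
    · linarith
  unfold dfc at h4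
  linarith

/-- **Countability in a family of sets of tails.** -/
theorem countable_family {I : Type} (X K : I → Set ℝ) (σ : I → I) (d : I → ℝ)
    (hX : ∀ i, X i ⊆ Icc 0 1) (hK : ∀ i, (K i).Countable)
    (h : ∀ i, ∀ x ∈ X i, x ∈ K i ∨ ∃ u ∈ X (σ i), x = (d i + u) / 2) : ∀ i, (X i).Countable := by
  let R : ℕ → I → Set ℝ := fun n => Nat.rec (fun _ => ∅)
    (fun _ r i => K i ∪ (fun u => (d i + u) / 2) '' (r (σ i))) n
  have hR : ∀ n i, (R n i).Countable := by
    intro n
    induction n with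
    | zero => intro i; exact countable_empty
    | succ n ih => intro i; exact (hK i).union ((ih (σ i)).image _)
  have hC : ∀ i, (⋃ n, R n i).Countable := fun i => countable_iUnion fun n => hR n i
  have key : ∀ n : ℕ, ∀ i, ∀ x ∈ X i, ∀ x' ∈ X i, x ∉ ⋃ n, R n i → x' ∉ ⋃ n, R n i →
      |x - x'| ≤ (1 / 2) ^ n := by
    intro n
    induction n with
    | zero =>
      intro i x hx x' hx' _ _
      have h1 := hX i hx
      have h2 := hX i hx'
      rw [pow_zero, abs_le]
      constructor <;> linarith [h1.1, h1.2, h2.1, h2.2]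
    | succ n ih =>
      intro i x hx x' hx' hn hn'
      have sub : ∀ z ∈ X i, z ∉ ⋃ n, R n i → ∃ u ∈ X (σ i), u ∉ (⋃ n, R n (σ i)) ∧ z = (d i + u) / 2 := by
        intro z hz hzn
        rcases h i z hz with h1 | ⟨u, hu, rfl⟩
        · have h2 : z ∈ R 1 i := Or.inl h1
          exact absurd (mem_iUnion.2 ⟨1, h2⟩) hzn
        · refine ⟨u, hu, ?_, rfl⟩
          intro hu'
          obtain ⟨m, hm⟩ := mem_iUnion.1 hu'
          have h2 : (d i + u) / 2 ∈ R (m + 1) i := Or.inr ⟨u, hm, rfl⟩
          exact hzn (mem_iUnion.2 ⟨m + 1, h2⟩)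
      obtain ⟨u, hu, hun, rfl⟩ := sub x hx hn
      obtain ⟨u', hu', hun', rfl⟩ := sub x' hx' hn'
      have := ih (σ i) u hu u' hu' hun hun'
      have e : (d i + u) / 2 - (d i + u') / 2 = (u - u') / 2 := by ring
      rw [e, abs_div, abs_two, pow_succ]
      linarith
  intro i
  have hs : (X i \ ⋃ n, R n i).Subsingleton := by
    intro x hx x' hx'
    have h1 : ∀ n : ℕ, |x - x'| ≤ (1 / 2) ^ n := fun n => key n i x hx.1 x' hx'.1 hx.2 hx'.2
    have h2 : |x - x'| ≤ 0 := ge_of_tendsto'
      (tendsto_pow_atTop_nhds_zero_of_lt_one (by norm_num : (0 : ℝ) ≤ 1 / 2) (by norm_num)) h1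
    have h3 := abs_nonpos_iff.1 h2
    linarith
  exact ((hs.countable).union (hC i)).mono fun x hx => by
    by_cases h1 : x ∈ ⋃ n, R n i
    · exact Or.inr h1
    · exact Or.inl ⟨hx, h1⟩

/-- **Countability of the solution sets of a finite set of states with ranks.** -/
theorem countable_sol {q : ℕ} (hq : 0 < q) (S : ℤ × ℤ → Prop) (rk : ℤ × ℤ → ℕ)
    (hS : ∀ s, S s → ∀ b, ok q (nx q s b).1 (nx q s b).2 = true → S (nx q s b) ∧ rk (nx q s b) ≤ rk s)
    (hu : ∀ s, S s → ∃ b, ok q (nx q s b).1 (nx q s b).2 = true → rk (nx q s b) < rk s) :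
    ∀ s, S s → (Sol q s.1 s.2).Countable := by
  suffices H : ∀ r : ℕ, ∀ s, S s → rk s = r → (Sol q s.1 s.2).Countable from fun s hs => H _ s hs rfl
  intro r
  induction r using Nat.strong_induction_on with
  | _ r ih =>
    -- the states of rank `r`
    let I := {s : ℤ × ℤ // S s ∧ rk s = r}
    classical
    choose! b hb using hu
    let nxt : I → ℤ × ℤ := fun s => nx q s.1 (!(b s.1))
    let good : I → Prop := fun s => S (nxt s) ∧ rk (nxt s) = r
    let K : I → Set ℝ := fun s => (⋃ c : Bool, if S (nx q s.1 c) ∧ rk (nx q s.1 c) < r then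
      (fun u : ℝ => ((if c then 1 else 0) + u) / 2) '' (Sol q (nx q s.1 c).1 (nx q s.1 c).2) else ∅)
    have hK : ∀ s : I, (K s).Countable := by
      intro s
      apply countable_iUnion
      intro c
      by_cases h : S (nx q s.1 c) ∧ rk (nx q s.1 c) < r
      · rw [if_pos h]
        exact (ih _ h.2 _ h.1 rfl).image _
      · rw [if_neg h]
        exact countable_empty
    have main := countable_family (I := I) (fun s => Sol q s.1.1 s.1.2) K
      (fun s => if h : good s then ⟨nxt s, h⟩ else s) (fun s => if !(b s.1) then 1 else 0)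
      (fun s x hx => ⟨hx.1, hx.2.1⟩) hK ?_
    · intro s hs hr
      exact main ⟨s, hs, hr⟩
    · intro s x hx
      have hx1 : ∃ c : Bool, ∃ u ∈ Sol q (nx q s.1 c).1 (nx q s.1 c).2, x = ((if c then 1 else 0) + u) / 2 := by
        rcases step hq hx with ⟨u, hu, rfl⟩ | ⟨u, hu, rfl⟩
        · exact ⟨false, u, hu, by simp⟩
        · exact ⟨true, u, hu, by simp⟩
      obtain ⟨c, u, hu', hxu⟩ := hx1
      have hok := ok_of_mem hq hu'
      obtain ⟨h1, h2⟩ := hS s.1 s.2.1 c hok
      rw [s.2.2] at h2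
      rcases lt_or_eq_of_le h2 with h3 | h3
      · left
        refine mem_iUnion.2 ⟨c, ?_⟩
        rw [if_pos ⟨h1, h3⟩]
        exact ⟨u, hu', hxu.symm⟩
      · right
        have hc : c ≠ b s.1 := by
          intro hcb
          have h4 := hb s.1 s.2.1 (by rw [← hcb]; exact hok)
          rw [← hcb, h3, s.2.2] at h4
          exact lt_irrefl _ h4
        have hc' : c = !(b s.1) := by
          cases c <;> cases hbs : b s.1 <;> simp_all
        have hgood : good s := by
          change S (nx q s.1 (!(b s.1))) ∧ rk (nx q s.1 (!(b s.1))) = r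
          rw [← hc']
          exact ⟨h1, h3⟩
        refine ⟨u, ?_, ?_⟩
        · rw [dif_pos hgood]
          change u ∈ Sol q (nx q s.1 (!(b s.1))).1 (nx q s.1 (!(b s.1))).2
          rw [← hc']
          exact hu'
        · rw [hxu, hc']

/-- the values at dyadic rationals are dyadic -/
lemma T_dyadic (m : ℕ) : ∀ k : ℤ, ∃ a : ℤ, T ((k : ℝ) / 2 ^ m) = a / 2 ^ m := by
  induction m with
  | zero =>
    intro k
    refine ⟨0, ?_⟩
    have h := T_add_int 0 k
    have h0 : T 0 = 0 := by
      have := T_low (t := 0) le_rfl (by norm_num)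
      rw [mul_zero] at this
      linarith
    rw [zero_add, h0] at h
    simpa using h
  | succ m ih =>
    intro k
    obtain ⟨a, ha⟩ := ih k
    have h1 := T_fe ((k : ℝ) / 2 ^ (m + 1))
    have e : 2 * ((k : ℝ) / 2 ^ (m + 1)) = k / 2 ^ m := by rw [pow_succ]; field_simp
    rw [e, ha] at h1
    have h2 : phi ((k : ℝ) / 2 ^ (m + 1)) =
        ((|k - 2 ^ (m + 1) * round ((k : ℝ) / 2 ^ (m + 1))| : ℤ) : ℝ) / 2 ^ (m + 1) := by
      unfold phi
      push_cast
      rw [eq_div_iff (by positivity)]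
      have h3 : (2 : ℝ) ^ (m + 1) = |(2 : ℝ) ^ (m + 1)| := (abs_of_pos (by positivity)).symm
      rw [h3, ← abs_mul, ← h3]
      congr 1
      field_simp
    refine ⟨|k - 2 ^ (m + 1) * round ((k : ℝ) / 2 ^ (m + 1))| + a, ?_⟩
    rw [h1, h2]
    push_cast
    rw [pow_succ]
    field_simp

end Pool.Agent.Q50.TK
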